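import Pool.Agent.H30.GroP

set_option autoImplicit false

namespace Pool.Agent.Results.MP_20595b_gt.Both

open Pool.Agent.Lead.Gro Pool.Agent.H30.GroP

theorem result : ∃ (X Y : Type) (_ : TopologicalSpace X) (_ : TopologicalSpace Y),
    T35Space X ∧ T35Space Y ∧ Groth X ∧ Groth Y ∧ ¬ Groth (X × Y) ∧ ¬ WeaklyGroth (X × Y) :=
  ⟨X, Y, inferInstance, inferInstance, inferInstance, inferInstance, gX, gY,
    fun h => not_wg (wg_iff.2 (groth_iff.1 h _ subset_rfl)), not_wg⟩

end Pool.Agent.Results.MP_20595b_gt.Both
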